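import Mathlib

set_option autoImplicit false
set_option linter.all false

open Set

namespace Pool.Agent.Results.MP_b18e8e_lc.ConsistentAlephOne

/-! ### Three copies of a group amalgamated along a subgroup -/

section Amalgam

variable {S : Type} [Group S] (R : Subgroup S)

/-- the set on which the amalgam acts -/
abbrev Pt (S : Type) [Group S] : Type := Subgroup S × S × ZMod 4

open Classical in
/-- the indicator function of `L ⊔ R` -/
noncomputable def ind (L : Subgroup S) (g : S) : ZMod 4 := if g ∈ L ⊔ R then 1 else 0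

lemma ind_one (L : Subgroup S) : ind R L 1 = 1 := by simp [ind, one_mem]

lemma ind_of_not {L : Subgroup S} {g : S} (h : g ∉ L ⊔ R) : ind R L g = 0 := by simp [ind, h]

lemma ind_mul {L : Subgroup S} {r : S} (h : r ∈ L ⊔ R) (g : S) : ind R L (r * g) = ind R L g := by
  have : r * g ∈ L ⊔ R ↔ g ∈ L ⊔ R := Subgroup.mul_mem_cancel_left _ h
  by_cases hg : g ∈ L ⊔ R
  · rw [ind, ind, if_pos hg, if_pos (this.2 hg)]
  · rw [ind, ind, if_neg hg, if_neg (fun h' => hg (this.1 h'))]

/-- `tw R k s` maps `(L, g, x)` to `(L, s g, x + k ([g ∈ L ⊔ R] - [s g ∈ L ⊔ R]))`. -/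
noncomputable def tw (k : ZMod 4) : S →* Equiv.Perm (Pt S) where
  toFun s :=
    { toFun := fun y => (y.1, s * y.2.1, y.2.2 + k * (ind R y.1 y.2.1 - ind R y.1 (s * y.2.1)))
      invFun := fun y =>
        (y.1, s⁻¹ * y.2.1, y.2.2 + k * (ind R y.1 y.2.1 - ind R y.1 (s⁻¹ * y.2.1)))
      left_inv := by
        rintro ⟨L, g, x⟩
        simp only [inv_mul_cancel_left, Prod.mk.injEq, true_and]
        ring
      right_inv := by
        rintro ⟨L, g, x⟩
        simp only [mul_inv_cancel_left, Prod.mk.injEq, true_and]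
        ring }
  map_one' := by
    ext y <;> simp
  map_mul' s s' := by
    apply Equiv.ext
    rintro ⟨L, g, x⟩
    simp only [Equiv.coe_fn_mk, Equiv.Perm.coe_mul, Function.comp_apply, Prod.mk.injEq, true_and,
      mul_assoc]
    ring

lemma tw_apply (k : ZMod 4) (s : S) (L : Subgroup S) (g : S) (x : ZMod 4) :
    tw R k s (L, g, x) = (L, s * g, x + k * (ind R L g - ind R L (s * g))) := rfl

lemma tw_injective (k : ZMod 4) : Function.Injective (tw R k) := by
  intro s s' h
  have := congrArg (fun f => (f (⊥, 1, 0)).2.1) h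
  simpa [tw_apply] using this

/-- all copies agree on `R` -/
lemma tw_of_mem (k k' : ZMod 4) {r : S} (h : r ∈ R) : tw R k r = tw R k' r := by
  apply Equiv.ext
  rintro ⟨L, g, x⟩
  have h' : r ∈ L ⊔ R := Subgroup.mem_sup_right h
  rw [tw_apply, tw_apply, ind_mul R h']
  simp

/-- the three copies of an element form an arithmetic progression -/
lemma tw_ap (w : S) : tw R 1 w * (tw R 0 w)⁻¹ * tw R 1 w = tw R 2 w := by
  rw [← map_inv]
  apply Equiv.ext
  rintro ⟨L, g, x⟩
  simp only [Equiv.Perm.coe_mul, Function.comp_apply, tw_apply, inv_mul_cancel_left, zero_mul,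
    add_zero, one_mul, Prod.mk.injEq, true_and]
  ring

/-- the permutations which preserve a function -/
def inv {X Y : Type} (F : X → Y) : Subgroup (Equiv.Perm X) where
  carrier := {g | ∀ x, F (g x) = F x}
  one_mem' := fun x => rfl
  mul_mem' := by
    intro g h hg hh x
    rw [Equiv.Perm.coe_mul, Function.comp_apply, hg, hh]
  inv_mem' := by
    intro g hg x
    have h1 : g (g⁻¹ x) = x := g.apply_symm_apply x
    have := hg (g⁻¹ x)
    rw [← this, h1]

lemma mem_inv {X Y : Type} {F : X → Y} {g : Equiv.Perm X} : g ∈ inv F ↔ ∀ x, F (g x) = F x :=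
  Iff.rfl

open Classical in
/-- the value of `f` at the last coordinate, on the slice of `L` -/
noncomputable def FL {Y : Type} (L : Subgroup S) (f : ZMod 4 → Y) (y : Pt S) : Option Y :=
  if y.1 = L then some (f y.2.2) else none

lemma tw_mem_inv_of_mem {Y : Type} (L : Subgroup S) (f : ZMod 4 → Y) (k : ZMod 4) {s : S}
    (hs : s ∈ L ⊔ R) : tw R k s ∈ inv (FL L f) := by
  rintro ⟨L', g, x⟩
  rw [tw_apply]
  by_cases h : L' = L
  · subst h
    simp only [FL, if_true]
    rw [ind_mul R hs]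
    simp
  · simp [FL, h]

lemma tw_mem_inv_of_const {Y : Type} (L : Subgroup S) (f : ZMod 4 → Y) (k : ZMod 4) (s : S)
    (hk : ∀ x c, f (x + k * c) = f x) : tw R k s ∈ inv (FL L f) := by
  rintro ⟨L', g, x⟩
  rw [tw_apply]
  by_cases h : L' = L
  · subst h
    simp only [FL, if_true]
    rw [hk]
  · simp [FL, h]

lemma of_tw_mem_inv {Y : Type} (L : Subgroup S) (f : ZMod 4 → Y) (k : ZMod 4) {s : S}
    (hk : f k ≠ f 0) (h : tw R k s ∈ inv (FL L f)) : s ∈ L ⊔ R := by
  by_contra hs
  have := h (L, 1, 0)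
  rw [tw_apply] at this
  simp only [FL, if_true, mul_one, ind_one, ind_of_not R hs, sub_zero, zero_add,
    Option.some.injEq] at this
  exact hk this

/-- the parity of an element of `ZMod 4` -/
def par (x : ZMod 4) : Bool := x = 0 ∨ x = 2

lemma par_two : ∀ x c : ZMod 4, par (x + 2 * c) = par x := by decide

lemma par_one : par 1 ≠ par 0 := by decide

lemma of_eq_zero {k : ZMod 4} (hk : k ≠ 0) {w s : S} (h : tw R k w = tw R 0 s) :
    w ∈ R ∧ w = s := by
  constructor
  · have h1 : tw R k w ∈ inv (FL (⊥ : Subgroup S) (id : ZMod 4 → ZMod 4)) := by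
      rw [h]
      exact tw_mem_inv_of_const R _ _ _ _ (by simp)
    have := of_tw_mem_inv R ⊥ (id : ZMod 4 → ZMod 4) k (by simpa using hk) h1
    simpa using this
  · have := congrArg (fun f => (f (⊥, 1, 0)).2.1) h
    simpa [tw_apply] using this

end Amalgam


/-! ### Countable ordinals -/

/-- The well-ordered set of the countable ordinals (order type `ω₁`). -/
abbrev Om : Type := (Cardinal.aleph 1 : Cardinal.{0}).ord.ToType

lemma mk_Om : Cardinal.mk Om = Cardinal.aleph 1 := Cardinal.mk_ord_toType _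

lemma countable_Iio (a : Om) : (Iio a).Countable := by
  have h : Cardinal.mk (Iio a) < Cardinal.mk Om :=
    Cardinal.mk_Iio_lt (α := (Cardinal.aleph 1).ord.ToType) a (by simp)
  rw [mk_Om] at h
  rwa [← Cardinal.le_aleph0_iff_set_countable, ← Order.lt_succ_iff, Cardinal.succ_aleph0]

lemma countable_Iic (a : Om) : (Iic a).Countable := by
  rw [← Iio_union_right]
  exact (countable_Iio a).union (countable_singleton a)

instance : Uncountable Om := by
  rw [← not_countable_iff, ← Cardinal.mk_le_aleph0_iff, mk_Om, not_le]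
  exact Cardinal.aleph0_lt_aleph_one

/-- countable sets are bounded -/
lemma bdd_of_countable {A : Set Om} (hA : A.Countable) : ∃ b, ∀ a ∈ A, a < b := by
  by_contra hcon
  push Not at hcon
  have : (univ : Set Om) ⊆ ⋃ a ∈ A, Iic a := by
    intro x _
    obtain ⟨a, ha, hx⟩ := hcon x
    exact mem_biUnion ha hx
  exact not_countable_univ ((hA.biUnion fun a _ => countable_Iic a).mono this)

instance : Nonempty Om := by
  by_contra h
  rw [not_nonempty_iff] at h
  exact not_countable (α := Om) inferInstance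

/-- Pressing down: some value of `τ` is taken unboundedly often. -/
lemma pressing {Z : Type} (F : Om → Set Z) (hF : ∀ b, (F b).Countable) (τ : Om → Z)
    (h : ∀ (a : Om) (s : ℕ → Om), Monotone s → (∀ n, s n < a) → (∀ i < a, ∃ n, i ≤ s n) →
      ∃ n, τ a ∈ F (s n)) :
    ∃ z, ∀ b, ∃ a, b < a ∧ τ a = z := by
  classical
  by_contra hcon
  push Not at hcon
  choose β hβ using hcon
  have step : ∀ b : Om, ∃ c, b < c ∧ ∀ z ∈ F b, β z < c := by
    intro b
    obtain ⟨c, hc⟩ := bdd_of_countable ((countable_singleton b).union ((hF b).image β))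
    exact ⟨c, hc b (Or.inl rfl), fun z hz => hc _ (Or.inr ⟨z, hz, rfl⟩)⟩
  choose nx h1 h2 using step
  obtain ⟨b0⟩ : Nonempty Om := inferInstance
  let s : ℕ → Om := fun n => nx^[n] b0
  have hs : ∀ n, s (n + 1) = nx (s n) := fun n => Function.iterate_succ_apply' _ _ _
  have hmono : StrictMono s := strictMono_nat_of_lt_succ fun n => by rw [hs]; exact h1 _
  obtain ⟨c, hc⟩ := bdd_of_countable (countable_range s)
  have hne : {x : Om | ∀ n, s n < x}.Nonempty := ⟨c, fun n => hc _ ⟨n, rfl⟩⟩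
  let a := wellFounded_lt.min _ hne
  have ha : ∀ n, s n < a := wellFounded_lt.min_mem _ hne
  have hlt : ∀ x < a, ∃ n, x ≤ s n := by
    intro x hx
    by_contra hcon
    push Not at hcon
    exact wellFounded_lt.not_lt_min {x : Om | ∀ n, s n < x} hcon hx
  obtain ⟨n, hn⟩ := h a s hmono.monotone ha hlt
  have h3 : β (τ a) < s (n + 1) := by rw [hs]; exact h2 _ _ hn
  exact hβ (τ a) a (h3.trans (ha _)) rfl

/-! ### The conditions -/

/-- A finite group, given by a sequence of generating permutations of a finite set, no one of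
which is in the group generated by the previous ones. -/
structure Shape where
  m : ℕ
  n : ℕ
  T : Fin m → Equiv.Perm (Fin n)
  new : ∀ j, T j ∉ Subgroup.closure (T '' Iio j)

instance : Countable Shape := by
  have : Function.Injective (fun s : Shape =>
      (⟨s.m, s.n, s.T⟩ : Σ m : ℕ, Σ n : ℕ, (Fin m → Equiv.Perm (Fin n)))) := by
    rintro ⟨m, n, T, _⟩ ⟨m', n', T', _⟩ h
    simp only [Sigma.mk.injEq] at h
    obtain ⟨rfl, h⟩ := h
    simp only [heq_eq_eq, Sigma.mk.injEq] at h
    obtain ⟨rfl, h⟩ := h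
    simp only [heq_eq_eq] at h
    subst h
    rfl
  exact this.countable

/-- A condition: a shape, and an increasing sequence of countable ordinals which index the
generators. -/
structure Cond where
  s : Shape
  ε : Fin s.m ↪o Om

namespace Cond

open Classical in
/-- the permutation assigned to the generator of index `i`, trivial outside of the domain -/
noncomputable def t (p : Cond) (i : Om) : Equiv.Perm (Fin p.s.n) :=
  if h : ∃ j, p.ε j = i then p.s.T h.choose else 1

lemma t_ε (p : Cond) (j : Fin p.s.m) : p.t (p.ε j) = p.s.T j := by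
  have h : ∃ j', p.ε j' = p.ε j := ⟨j, rfl⟩
  rw [t, dif_pos h]
  congr 1
  exact p.ε.injective h.choose_spec

/-- the set of the indices of the generators of a condition -/
def dom (p : Cond) : Set Om := range p.ε

lemma t_off (p : Cond) {i : Om} (h : i ∉ p.dom) : p.t i = 1 := by
  rw [t, dif_neg]
  exact h

/-- the words in the generators of a condition -/
def W (p : Cond) : Subgroup (FreeGroup Om) := Subgroup.closure (FreeGroup.of '' p.dom)

/-- the value of a word -/
noncomputable def val (p : Cond) : FreeGroup Om →* Equiv.Perm (Fin p.s.n) := FreeGroup.lift p.t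

/-- the group generated by the generators of index `< a` -/
def gen (p : Cond) (a : Om) : Subgroup (Equiv.Perm (Fin p.s.n)) :=
  Subgroup.closure (p.t '' Iio a)

end Cond

open Cond

/-- `q ≤ p` if `q` has more generators, the group of `p` is a subgroup of the group of `q`, and
the elements of the group of `p` which are generated by the generators of index `< a` in `q`
are so in `p`. -/
instance : Preorder Cond where
  le q p := p.dom ⊆ q.dom ∧ ∀ v ∈ p.W, (q.val v = 1 ↔ p.val v = 1) ∧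
    ∀ a, q.val v ∈ q.gen a → p.val v ∈ p.gen a
  le_refl p := ⟨Subset.rfl, fun v _ => ⟨Iff.rfl, fun a h => h⟩⟩
  le_trans r q p h1 h2 := by
    refine ⟨h2.1.trans h1.1, fun v hv => ?_⟩
    have hv' : v ∈ q.W := Subgroup.closure_mono (image_mono h2.1) hv
    exact ⟨(h1.2 v hv').1.trans (h2.2 v hv).1, fun a h => (h2.2 v hv).2 a ((h1.2 v hv').2 a h)⟩

lemma le_def {q p : Cond} : q ≤ p ↔ p.dom ⊆ q.dom ∧ ∀ v ∈ p.W, (q.val v = 1 ↔ p.val v = 1) ∧
    ∀ a, q.val v ∈ q.gen a → p.val v ∈ p.gen a := Iff.rfl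

lemma W_mono {q p : Cond} (h : q ≤ p) : p.W ≤ q.W := Subgroup.closure_mono (image_mono h.1)

lemma finite_dom (p : Cond) : p.dom.Finite := finite_range _

/-- a generator is not in the group generated by the previous ones -/
lemma t_not_mem (p : Cond) {i : Om} (hi : i ∈ p.dom) : p.t i ∉ p.gen i := by
  obtain ⟨j, rfl⟩ := hi
  rw [t_ε, gen]
  intro h
  refine p.s.new j (Subgroup.closure_le _ |>.2 ?_ h)
  rintro _ ⟨i, hi, rfl⟩
  by_cases hd : i ∈ p.dom
  · obtain ⟨j', rfl⟩ := hd
    rw [t_ε]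
    exact Subgroup.subset_closure ⟨j', p.ε.lt_iff_lt.1 hi, rfl⟩
  · rw [t_off p hd]
    exact one_mem _

/-- A marked finite group is a condition. -/
lemma exists_cond (E : Finset Om) {G : Type} [Group G] [Finite G] (t : Om → G)
    (off : ∀ i ∉ E, t i = 1) (new : ∀ i ∈ E, t i ∉ Subgroup.closure (t '' Iio i)) :
    ∃ (c : Cond) (ρ : G →* Equiv.Perm (Fin c.s.n)), Function.Injective ρ ∧ c.dom = ↑E ∧
      ∀ i, c.t i = ρ (t i) := by
  classical
  have : Fintype G := Fintype.ofFinite G
  let e : G ≃ Fin (Fintype.card G) := Fintype.equivFin G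
  let ρ : G →* Equiv.Perm (Fin (Fintype.card G)) :=
    (e.permCongrHom : Equiv.Perm G ≃* Equiv.Perm (Fin (Fintype.card G))).toMonoidHom.comp
      (MulAction.toPermHom G G)
  have hρ : Function.Injective ρ := by
    intro x y hxy
    exact MulAction.toPerm_injective ((e.permCongrHom).injective hxy)
  let ε : Fin E.card ↪o Om := E.orderEmbOfFin rfl
  have hE : ∀ j, ε j ∈ E := fun j => E.orderEmbOfFin_mem rfl j
  let c : Cond := ⟨⟨E.card, Fintype.card G, fun j => ρ (t (ε j)), by
    intro j hj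
    refine new (ε j) (hE j) ?_
    have h1 : Subgroup.closure ((fun j => ρ (t (ε j))) '' Iio j) ≤
        (Subgroup.closure (t '' Iio (ε j))).map ρ := by
      rw [Subgroup.closure_le]
      rintro _ ⟨j', hj', rfl⟩
      exact ⟨_, Subgroup.subset_closure ⟨ε j', ε.lt_iff_lt.2 hj', rfl⟩, rfl⟩
    obtain ⟨x, hx, hx'⟩ := h1 hj
    rwa [hρ hx'] at hx⟩, ε⟩
  have hdom : c.dom = ↑E := E.range_orderEmbOfFin rfl
  refine ⟨c, ρ, hρ, hdom, fun i => ?_⟩
  by_cases hi : i ∈ c.dom
  · obtain ⟨j, rfl⟩ := hi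
    exact c.t_ε j
  · rw [c.t_off hi, off i (by rwa [hdom] at hi), map_one]

lemma val_eq {c : Cond} {G : Type} [Group G] (t : Om → G) (ρ : G →* Equiv.Perm (Fin c.s.n))
    (h : ∀ i, c.t i = ρ (t i)) (v : FreeGroup Om) : c.val v = ρ (FreeGroup.lift t v) := by
  have : c.val = ρ.comp (FreeGroup.lift t) := by
    ext i
    simp [Cond.val, h]
  rw [this]; rfl

lemma gen_eq {c : Cond} {G : Type} [Group G] (t : Om → G) (ρ : G →* Equiv.Perm (Fin c.s.n))
    (h : ∀ i, c.t i = ρ (t i)) (a : Om) :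
    c.gen a = (Subgroup.closure (t '' Iio a)).map ρ := by
  rw [Cond.gen, MonoidHom.map_closure, image_image]
  congr 1
  exact image_congr fun i _ => h i

/-- criterion for the order -/
lemma le_of {c p : Cond} {G : Type} [Group G] (t : Om → G) (ρ : G →* Equiv.Perm (Fin c.s.n))
    (hρ : Function.Injective ρ) (h : ∀ i, c.t i = ρ (t i)) (hd : p.dom ⊆ c.dom)
    (φ : Equiv.Perm (Fin p.s.n) →* G) (hφ : Function.Injective φ)
    (ht : ∀ i ∈ p.dom, t i = φ (p.t i))
    (hg : ∀ a, ∀ w ∈ Subgroup.closure (range p.s.T), φ w ∈ Subgroup.closure (t '' Iio a) →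
      w ∈ p.gen a) : c ≤ p := by
  have key : ∀ v ∈ p.W, FreeGroup.lift t v = φ (p.val v) := by
    intro v hv
    have : Set.EqOn (FreeGroup.lift t) (φ.comp p.val) (p.W : Set (FreeGroup Om)) := by
      apply MonoidHom.eqOn_closure
      rintro _ ⟨i, hi, rfl⟩
      simp [Cond.val, ht i hi]
    exact this hv
  have hval : ∀ v ∈ p.W, p.val v ∈ Subgroup.closure (range p.s.T) := by
    intro v hv
    have h1 : p.W ≤ (Subgroup.closure (range p.s.T)).comap p.val := by
      rw [Cond.W, Subgroup.closure_le]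
      rintro _ ⟨i, ⟨j, rfl⟩, rfl⟩
      simp only [SetLike.mem_coe, Subgroup.mem_comap, Cond.val, FreeGroup.lift_apply_of, t_ε]
      exact Subgroup.subset_closure ⟨j, rfl⟩
    exact h1 hv
  refine ⟨hd, fun v hv => ⟨?_, fun a ha => ?_⟩⟩
  · rw [val_eq t ρ h, key v hv]
    constructor
    · intro h1
      exact hφ (hρ (by simpa using h1))
    · intro h1
      rw [h1, map_one, map_one]
  · rw [val_eq t ρ h, gen_eq t ρ h, key v hv] at ha
    obtain ⟨x, hx, hx'⟩ := ha
    rw [hρ hx'] at hx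
    exact hg a _ (hval v hv) hx


/-! ### Density -/

lemma exists_dom (p : Cond) (i₀ : Om) : ∃ q ≤ p, i₀ ∈ q.dom := by
  classical
  by_cases hi : i₀ ∈ p.dom
  · exact ⟨p, le_rfl, hi⟩
  let G : Type := Equiv.Perm (Fin p.s.n) × Multiplicative (ZMod 2)
  let t : Om → G := fun i => if i = i₀ then (1, Multiplicative.ofAdd 1) else (p.t i, 1)
  let E : Finset Om := insert i₀ (finite_dom p).toFinset
  have hne : (Multiplicative.ofAdd (1 : ZMod 2)) ≠ 1 := by decide
  have off : ∀ i ∉ E, t i = 1 := by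
    intro i hi'
    simp only [E, Finset.mem_insert, Finite.mem_toFinset, not_or] at hi'
    show (if i = i₀ then _ else _) = _
    rw [if_neg hi'.1, t_off p hi'.2]
    rfl
  have hfst : ∀ a, Subgroup.closure (t '' Iio a) ≤
      (p.gen a).comap (MonoidHom.fst (Equiv.Perm (Fin p.s.n)) (Multiplicative (ZMod 2))) := by
    intro a
    rw [Subgroup.closure_le]
    rintro _ ⟨i, hia, rfl⟩
    simp only [SetLike.mem_coe, Subgroup.mem_comap, MonoidHom.coe_fst]
    by_cases h : i = i₀
    · simp only [t, if_pos h]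
      exact one_mem _
    · simp only [t, if_neg h]
      exact Subgroup.subset_closure ⟨i, hia, rfl⟩
  have new : ∀ i ∈ E, t i ∉ Subgroup.closure (t '' Iio i) := by
    intro i hiE hi'
    by_cases h : i = i₀
    · subst h
      have h1 : Subgroup.closure (t '' Iio i) ≤
          (MonoidHom.snd (Equiv.Perm (Fin p.s.n)) (Multiplicative (ZMod 2))).ker := by
        rw [Subgroup.closure_le]
        rintro _ ⟨i', hia, rfl⟩
        have : i' ≠ i := ne_of_lt hia
        simp only [t, if_neg this, SetLike.mem_coe, MonoidHom.mem_ker, MonoidHom.coe_snd]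
        rfl
      have h2 := h1 hi'
      simp only [t, if_true, MonoidHom.mem_ker, MonoidHom.coe_snd] at h2
      exact hne h2
    · have h1 := hfst i hi'
      simp only [t, if_neg h, Subgroup.mem_comap, MonoidHom.coe_fst] at h1
      have h2 : i ∈ p.dom := by
        simp only [E, Finset.mem_insert, Finite.mem_toFinset] at hiE
        exact hiE.resolve_left h
      exact t_not_mem p h2 h1
  obtain ⟨c, ρ, hρ, hd, hc⟩ := exists_cond E t off new
  have hmem : ∀ i, i ∈ c.dom ↔ i = i₀ ∨ i ∈ p.dom := by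
    intro i
    rw [hd]
    simp [E]
  refine ⟨c, ?_, (hmem i₀).2 (Or.inl rfl)⟩
  refine le_of t ρ hρ hc (fun i hi' => (hmem i).2 (Or.inr hi'))
    (MonoidHom.inl _ _) (fun x y h => congrArg Prod.fst h) (fun i hi' => ?_) (fun a w _ hw => ?_)
  · have : i ≠ i₀ := fun h => hi (h ▸ hi')
    simp only [t, if_neg this]
    rfl
  · exact hfst a hw

lemma exists_finset_dom (p : Cond) (F : Finset Om) : ∃ q ≤ p, ↑F ⊆ q.dom := by
  classical
  induction F using Finset.induction_on with
  | empty => exact ⟨p, le_rfl, by simp⟩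
  | insert i F _ ih =>
    obtain ⟨q, hq, hF⟩ := ih
    obtain ⟨r, hr, hi⟩ := exists_dom q i
    refine ⟨r, hr.trans hq, ?_⟩
    rw [Finset.coe_insert, insert_subset_iff]
    exact ⟨hi, hF.trans hr.1⟩

/-- each word is a product of finitely many generators -/
lemma exists_finset_word (v : FreeGroup Om) :
    ∃ F : Finset Om, v ∈ Subgroup.closure (FreeGroup.of '' (F : Set Om)) := by
  classical
  induction v using FreeGroup.induction_on with
  | C1 => exact ⟨∅, one_mem _⟩
  | of i => exact ⟨{i}, Subgroup.subset_closure ⟨i, by simp, rfl⟩⟩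
  | inv_of i _ => exact ⟨{i}, inv_mem (Subgroup.subset_closure ⟨i, by simp, rfl⟩)⟩
  | mul u v hu hv =>
    obtain ⟨F, hF⟩ := hu
    obtain ⟨F', hF'⟩ := hv
    refine ⟨F ∪ F', mul_mem ?_ ?_⟩
    · exact Subgroup.closure_mono (image_mono (by simp)) hF
    · exact Subgroup.closure_mono (image_mono (by simp)) hF'

lemma exists_W (p : Cond) (v : FreeGroup Om) : ∃ q ≤ p, v ∈ q.W := by
  obtain ⟨F, hF⟩ := exists_finset_word v
  obtain ⟨q, hq, h⟩ := exists_finset_dom p F
  exact ⟨q, hq, Subgroup.closure_mono (image_mono h) hF⟩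

/-! ### Three conditions of the same shape -/

lemma amalgam (s : Shape) (ε₀ ε₂ ε₁ : Fin s.m ↪o Om) {a b c : Om} (hab : a < b) (hbc : b < c)
    (h₀ : ∀ j, ε₀ j < b) (h₂ : ∀ j, ε₂ j < c)
    (e₂ : ∀ j, ε₀ j < a → ε₂ j = ε₀ j) (e₁ : ∀ j, ε₀ j < a → ε₁ j = ε₀ j)
    (f₂ : ∀ j, ¬ ε₀ j < a → b ≤ ε₂ j) (f₁ : ∀ j, ¬ ε₀ j < a → c ≤ ε₁ j) :
    ∃ D : Cond, D ≤ ⟨s, ε₀⟩ ∧ D ≤ ⟨s, ε₂⟩ ∧ D ≤ ⟨s, ε₁⟩ ∧ ∀ u : FreeGroup (Fin s.m),
      D.val (FreeGroup.map ε₁ u) * (D.val (FreeGroup.map ε₀ u))⁻¹ * D.val (FreeGroup.map ε₁ u) =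
        D.val (FreeGroup.map ε₂ u) ∧
      (D.val (FreeGroup.map ε₀ u) = D.val (FreeGroup.map ε₂ u) →
        FreeGroup.lift s.T u ∈ Subgroup.closure (s.T '' {j | ε₀ j < a})) := by
  classical
  let S : Type := Equiv.Perm (Fin s.n)
  let R : Subgroup S := Subgroup.closure (s.T '' {j | ε₀ j < a})
  have hTR : ∀ j, ε₀ j < a → s.T j ∈ R := fun j hj => Subgroup.subset_closure ⟨j, hj, rfl⟩
  let p₀ : Cond := ⟨s, ε₀⟩
  let p₂ : Cond := ⟨s, ε₂⟩
  let p₁ : Cond := ⟨s, ε₁⟩
  let t : Om → Equiv.Perm (Pt S) := fun i =>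
    if i < b then tw R 0 (p₀.t i) else if i < c then tw R 2 (p₂.t i) else tw R 1 (p₁.t i)
  have t₀ : ∀ j, t (ε₀ j) = tw R 0 (s.T j) := by
    intro j
    simp only [t, if_pos (h₀ j)]
    exact congrArg _ (t_ε p₀ j)
  have t₂ : ∀ j, t (ε₂ j) = tw R 2 (s.T j) := by
    intro j
    by_cases hj : ε₀ j < a
    · rw [e₂ j hj, t₀, tw_of_mem R 0 2 (hTR j hj)]
    · have h1 : ¬ ε₂ j < b := not_lt.2 (f₂ j hj)
      simp only [t, if_neg h1, if_pos (h₂ j)]
      exact congrArg _ (t_ε p₂ j)
  have t₁ : ∀ j, t (ε₁ j) = tw R 1 (s.T j) := by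
    intro j
    by_cases hj : ε₀ j < a
    · rw [e₁ j hj, t₀, tw_of_mem R 0 1 (hTR j hj)]
    · have h1 : ¬ ε₁ j < c := not_lt.2 (f₁ j hj)
      have h2 : ¬ ε₁ j < b := fun h => h1 (h.trans hbc)
      simp only [t, if_neg h1, if_neg h2]
      exact congrArg _ (t_ε p₁ j)
  -- the values of `t` below `e`
  have cases : ∀ i, t i = 1 ∨ (∃ j, ε₀ j = i ∧ t i = tw R 0 (s.T j)) ∨
      (∃ j, ε₂ j = i ∧ b ≤ i ∧ t i = tw R 2 (s.T j)) ∨
      (∃ j, ε₁ j = i ∧ c ≤ i ∧ t i = tw R 1 (s.T j)) := by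
    intro i
    by_cases hb : i < b
    · by_cases hi : i ∈ p₀.dom
      · obtain ⟨j, rfl⟩ := hi
        exact Or.inr (Or.inl ⟨j, rfl, t₀ j⟩)
      · left
        simp only [t, if_pos hb, t_off p₀ hi, map_one]
    · by_cases hc : i < c
      · by_cases hi : i ∈ p₂.dom
        · obtain ⟨j, rfl⟩ := hi
          exact Or.inr (Or.inr (Or.inl ⟨j, rfl, not_lt.1 hb, t₂ j⟩))
        · left
          simp only [t, if_neg hb, if_pos hc, t_off p₂ hi, map_one]
      · by_cases hi : i ∈ p₁.dom
        · obtain ⟨j, rfl⟩ := hi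
          exact Or.inr (Or.inr (Or.inr ⟨j, rfl, not_lt.1 hc, t₁ j⟩))
        · left
          simp only [t, if_neg hb, if_neg hc, t_off p₁ hi, map_one]
  have gle : ∀ (p : Cond) (e : Om) (j : Fin p.s.m), p.ε j < e → p.s.T j ∈ p.gen e := by
    intro p e j hj
    exact Subgroup.subset_closure ⟨_, hj, t_ε p j⟩
  -- key facts
  have key₀ : ∀ e, ∀ w ∈ Subgroup.closure (range s.T),
      tw R 0 w ∈ Subgroup.closure (t '' Iio e) → w ∈ p₀.gen e := by
    intro e w hw hmem
    by_cases he : e ≤ b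
    · have h1 : Subgroup.closure (t '' Iio e) ≤ (p₀.gen e).map (tw R 0) := by
        rw [Subgroup.closure_le]
        rintro _ ⟨i, hi, rfl⟩
        rcases cases i with h | ⟨j, hj, h⟩ | ⟨j, hj, hb, h⟩ | ⟨j, hj, hc, h⟩
        · rw [h]; exact one_mem _
        · rw [h]; exact ⟨_, gle p₀ e j (hj ▸ hi), rfl⟩
        · exact absurd (hi.trans_le he) (not_lt.2 hb)
        · exact absurd ((hi.trans_le he).trans hbc) (not_lt.2 hc)
      obtain ⟨w', hw', h'⟩ := h1 hmem
      rwa [tw_injective R 0 h'] at hw'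
    · have h1 : Subgroup.closure (range s.T) ≤ p₀.gen e := by
        rw [Subgroup.closure_le]
        rintro _ ⟨j, rfl⟩
        exact gle p₀ e j ((h₀ j).trans (not_le.1 he))
      exact h1 hw
  -- for `e ≤ b`
  have low : ∀ (ε : Fin s.m ↪o Om), (∀ j, ε₀ j < a → ε j = ε₀ j) → ∀ k : ZMod 4, k ≠ 0 →
      ∀ e ≤ b, ∀ w, tw R k w ∈ Subgroup.closure (t '' Iio e) →
      w ∈ (⟨s, ε⟩ : Cond).gen e := by
    intro ε hε k hk e he w hmem
    have h1 : Subgroup.closure (t '' Iio e) ≤ (p₀.gen e).map (tw R 0) := by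
      rw [Subgroup.closure_le]
      rintro _ ⟨i, hi, rfl⟩
      rcases cases i with h | ⟨j, hj, h⟩ | ⟨j, hj, hb, h⟩ | ⟨j, hj, hc, h⟩
      · rw [h]; exact one_mem _
      · rw [h]; exact ⟨_, gle p₀ e j (hj ▸ hi), rfl⟩
      · exact absurd (hi.trans_le he) (not_lt.2 hb)
      · exact absurd ((hi.trans_le he).trans hbc) (not_lt.2 hc)
    obtain ⟨w', hw', h'⟩ := h1 hmem
    obtain ⟨hwR, rfl⟩ := of_eq_zero R hk h'.symm
    by_cases hea : e ≤ a
    · -- all generators below `e` are common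
      have h2 : p₀.gen e ≤ (⟨s, ε⟩ : Cond).gen e := by
        rw [Cond.gen, Subgroup.closure_le]
        rintro _ ⟨i, hi, rfl⟩
        by_cases hd : i ∈ p₀.dom
        · obtain ⟨j, rfl⟩ := hd
          have hj : ε₀ j < a := lt_of_lt_of_le hi hea
          rw [t_ε]
          have : (⟨s, ε⟩ : Cond).ε j < e := by
            show ε j < e
            rw [hε j hj]; exact hi
          exact gle ⟨s, ε⟩ e j this
        · rw [t_off p₀ hd]
          exact one_mem _
      exact h2 hw'
    · have h2 : R ≤ (⟨s, ε⟩ : Cond).gen e := by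
        rw [Subgroup.closure_le]
        rintro _ ⟨j, hj, rfl⟩
        have : (⟨s, ε⟩ : Cond).ε j < e := by
          show ε j < e
          rw [hε j hj]; exact hj.trans (not_le.1 hea)
        exact gle ⟨s, ε⟩ e j this
      exact h2 hwR
  have hRgen : ∀ (ε : Fin s.m ↪o Om), (∀ j, ε₀ j < a → ε j = ε₀ j) → ∀ e, a ≤ e →
      R ≤ (⟨s, ε⟩ : Cond).gen e := by
    intro ε hε e he
    rw [Subgroup.closure_le]
    rintro _ ⟨j, hj, rfl⟩
    have : (⟨s, ε⟩ : Cond).ε j < e := by
      show ε j < e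
      rw [hε j hj]; exact lt_of_lt_of_le hj he
    exact gle ⟨s, ε⟩ e j this
  have key₂ : ∀ e, ∀ w ∈ Subgroup.closure (range s.T),
      tw R 2 w ∈ Subgroup.closure (t '' Iio e) → w ∈ p₂.gen e := by
    intro e w hw hmem
    by_cases he : e ≤ b
    · exact low ε₂ e₂ 2 (by decide) e he w hmem
    · rw [not_le] at he
      by_cases hec : e ≤ c
      · have hR := hRgen ε₂ e₂ e (hab.trans he).le
        have h1 : Subgroup.closure (t '' Iio e) ≤ inv (FL (p₂.gen e) (id : ZMod 4 → ZMod 4)) := by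
          rw [Subgroup.closure_le]
          rintro _ ⟨i, hi, rfl⟩
          rcases cases i with h | ⟨j, hj, h⟩ | ⟨j, hj, hb, h⟩ | ⟨j, hj, hc, h⟩
          · rw [h]; exact one_mem _
          · rw [h]; exact tw_mem_inv_of_const R _ _ _ _ (by simp)
          · rw [h]
            exact tw_mem_inv_of_mem R _ _ _ (Subgroup.mem_sup_left (gle p₂ e j (hj ▸ hi)))
          · exact absurd (lt_of_lt_of_le hi hec) (not_lt.2 hc)
        have h2 := of_tw_mem_inv R _ _ _ (by decide) (h1 hmem)
        rwa [sup_eq_left.2 hR] at h2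
      · have h1 : Subgroup.closure (range s.T) ≤ p₂.gen e := by
          rw [Subgroup.closure_le]
          rintro _ ⟨j, rfl⟩
          exact gle p₂ e j ((h₂ j).trans (not_le.1 hec))
        exact h1 hw
  have key₁ : ∀ e, ∀ w ∈ Subgroup.closure (range s.T),
      tw R 1 w ∈ Subgroup.closure (t '' Iio e) → w ∈ p₁.gen e := by
    intro e w hw hmem
    by_cases he : e ≤ b
    · exact low ε₁ e₁ 1 (by decide) e he w hmem
    · rw [not_le] at he
      have hR := hRgen ε₁ e₁ e (hab.trans he).le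
      have h1 : Subgroup.closure (t '' Iio e) ≤ inv (FL (p₁.gen e) par) := by
        rw [Subgroup.closure_le]
        rintro _ ⟨i, hi, rfl⟩
        rcases cases i with h | ⟨j, hj, h⟩ | ⟨j, hj, hb, h⟩ | ⟨j, hj, hc, h⟩
        · rw [h]; exact one_mem _
        · rw [h]; exact tw_mem_inv_of_const R _ _ _ _ (by simp)
        · rw [h]; exact tw_mem_inv_of_const R _ _ _ _ par_two
        · rw [h]
          exact tw_mem_inv_of_mem R _ _ _ (Subgroup.mem_sup_left (gle p₁ e j (hj ▸ hi)))
      have h2 := of_tw_mem_inv R _ _ _ par_one (h1 hmem)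
      rwa [sup_eq_left.2 hR] at h2
  -- the condition
  let E : Finset Om := Finset.univ.image ε₀ ∪ (Finset.univ.image ε₂ ∪ Finset.univ.image ε₁)
  have hE : ∀ i, i ∈ E ↔ (∃ j, ε₀ j = i) ∨ (∃ j, ε₂ j = i) ∨ (∃ j, ε₁ j = i) := by
    intro i
    simp [E]
  have off : ∀ i ∉ E, t i = 1 := by
    intro i hi
    rw [hE] at hi
    push Not at hi
    rcases cases i with h | ⟨j, hj, h⟩ | ⟨j, hj, hb, h⟩ | ⟨j, hj, hc, h⟩
    · exact h
    · exact absurd hj (hi.1 j)
    · exact absurd hj (hi.2.1 j)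
    · exact absurd hj (hi.2.2 j)
  have new : ∀ i ∈ E, t i ∉ Subgroup.closure (t '' Iio i) := by
    intro i hi hmem
    rcases (hE i).1 hi with ⟨j, rfl⟩ | ⟨j, rfl⟩ | ⟨j, rfl⟩
    · rw [t₀] at hmem
      have := key₀ _ _ (Subgroup.subset_closure ⟨j, rfl⟩) hmem
      rw [← t_ε p₀ j] at this
      exact t_not_mem p₀ ⟨j, rfl⟩ this
    · rw [t₂] at hmem
      have := key₂ _ _ (Subgroup.subset_closure ⟨j, rfl⟩) hmem
      rw [← t_ε p₂ j] at this
      exact t_not_mem p₂ ⟨j, rfl⟩ this
    · rw [t₁] at hmem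
      have := key₁ _ _ (Subgroup.subset_closure ⟨j, rfl⟩) hmem
      rw [← t_ε p₁ j] at this
      exact t_not_mem p₁ ⟨j, rfl⟩ this
  obtain ⟨D, ρ, hρ, hd, hD⟩ := exists_cond E t off new
  have hmem : ∀ i, i ∈ D.dom ↔ (∃ j, ε₀ j = i) ∨ (∃ j, ε₂ j = i) ∨ (∃ j, ε₁ j = i) := by
    intro i
    rw [hd]
    exact hE i
  have hval : ∀ (ε : Fin s.m ↪o Om) (k : ZMod 4), (∀ j, t (ε j) = tw R k (s.T j)) →
      ∀ u : FreeGroup (Fin s.m), D.val (FreeGroup.map ε u) =
        ρ (tw R k (FreeGroup.lift s.T u)) := by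
    intro ε k hε u
    rw [val_eq t ρ hD]
    congr 1
    have : (FreeGroup.lift t).comp (FreeGroup.map ε) = (tw R k).comp (FreeGroup.lift s.T) :=
      FreeGroup.ext_hom _ _ fun j => by
        simp only [MonoidHom.comp_apply, FreeGroup.map.of, FreeGroup.lift_apply_of, hε]
    exact congrArg (fun f : FreeGroup (Fin s.m) →* _ => f u) this
  refine ⟨D, ?_, ?_, ?_, ?_⟩
  · refine le_of t ρ hρ hD (fun i hi => (hmem i).2 (Or.inl hi)) (tw R 0) (tw_injective R 0) ?_
      key₀
    rintro _ ⟨j, rfl⟩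
    exact (t₀ j).trans (congrArg _ (t_ε p₀ j).symm)
  · refine le_of t ρ hρ hD (fun i hi => (hmem i).2 (Or.inr (Or.inl hi))) (tw R 2)
      (tw_injective R 2) ?_ key₂
    rintro _ ⟨j, rfl⟩
    exact (t₂ j).trans (congrArg _ (t_ε p₂ j).symm)
  · refine le_of t ρ hρ hD (fun i hi => (hmem i).2 (Or.inr (Or.inr hi))) (tw R 1)
      (tw_injective R 1) ?_ key₁
    rintro _ ⟨j, rfl⟩
    exact (t₁ j).trans (congrArg _ (t_ε p₁ j).symm)
  · intro u
    rw [hval ε₀ 0 t₀, hval ε₂ 2 t₂, hval ε₁ 1 t₁]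
    constructor
    · rw [← map_inv, ← map_mul, ← map_mul, tw_ap]
    · intro h
      exact (of_eq_zero R (by decide) (hρ h).symm).1


/-! ### Forcing -/

section

universe u v w

variable {P : Type u} [Preorder P]

/-- `p` forces `not φ` iff no `q ≤ p` forces `φ`. -/
def fnot (φ : Set P) : Set P := {p | ∀ q ≤ p, q ∉ φ}

/-- `p` forces `φ and ψ` iff it forces both. -/
def fand (φ ψ : Set P) : Set P := {p | p ∈ φ ∧ p ∈ ψ}

/-- `p` forces `for all i, φ i` iff it forces every `φ i`. -/
def fall {ι : Sort v} (φ : ι → Set P) : Set P := {p | ∀ i, p ∈ φ i}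

/-- `φ implies ψ` is `not (φ and not ψ)`. -/
def fimp (φ ψ : Set P) : Set P := fnot (fand φ (fnot ψ))

/-- `there is i with φ i` is `not for all i, not φ i`. -/
def fex {ι : Sort v} (φ : ι → Set P) : Set P := fnot (fall fun i => fnot (φ i))

/-- An absolute statement about ground model objects. -/
def fground (h : Prop) : Set P := {_p | h}

/-- `p` forces that the generic filter meets the set `N` of conditions:
the set of `r` lying below some member of `N` is dense below `p`. -/
def meets (N : Set P) : Set P := {p | ∀ q ≤ p, ∃ r ≤ q, ∃ s ∈ N, r ≤ s}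

/-- The relation named by `R` is a function from `X` to `Y`. -/
def IsFun {X : Type v} {Y : Type w} (R : X → Y → Set P) : Set P :=
  fand (fall fun x => fex fun y => meets (R x y))
    (fall fun x => fall fun y => fall fun y' =>
      fimp (fand (meets (R x y)) (meets (R x y'))) (fground (y = y')))

/-- The relation named by `R` is onto `Y`. -/
def IsOnto {X : Type v} {Y : Type w} (R : X → Y → Set P) : Set P :=
  fall fun y => fex fun x => meets (R x y)

variable (P) in
/-- The countable chain condition. -/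
def CCC : Prop := ∀ A : Set P, (∀ p ∈ A, ∀ q ∈ A, p ≠ q → ¬ ∃ r, r ≤ p ∧ r ≤ q) → A.Countable

variable (P) in
/-- In the extension there is no function from the natural numbers onto the ground model `ω₁`. -/
def OmegaOnePreserved : Set P :=
  fnot (fex fun R : ℕ → Om → Set P => fand (IsFun R) (IsOnto R))

/-- In the extension, the set of words named by `N` is a normal subgroup of the free group on
`ω₁`. -/
def IsNormalName (N : FreeGroup Om → Set P) : Set P :=
  fand (meets (N 1)) (fand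
    (fall fun u => fall fun v => fimp (fand (meets (N u)) (meets (N v))) (meets (N (u * v⁻¹))))
    (fall fun u => fall fun g => fimp (meets (N u)) (meets (N (g * u * g⁻¹)))))

/-- In the extension, the images of the generators in the quotient of the free group by `N` are
pairwise distinct. -/
def GeneratorsDistinct (N : FreeGroup Om → Set P) : Set P :=
  fall fun i : Om => fall fun j : Om =>
    fimp (fground (i ≠ j)) (fnot (meets (N ((FreeGroup.of i)⁻¹ * FreeGroup.of j))))

/-- In the extension, the set of the classes modulo `N` of the words in `H` is uncountable: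
there is no function `e` from the natural numbers to the words, such that each word in `H` is
congruent modulo `N` to some value of `e`. -/
def UncountableMod (N H : FreeGroup Om → Set P) : Set P :=
  fnot (fex fun e : ℕ → FreeGroup Om → Set P => fand (IsFun e)
    (fall fun v => fimp (meets (H v))
      (fex fun n : ℕ => fex fun u => fand (meets (e n u)) (meets (N (u⁻¹ * v))))))

/-- In the extension there are words `x, y, z` in `H`, such that `x⁻¹ y = y⁻¹ z` and `x ≠ z` hold
in the quotient group modulo `N`. -/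
def HasBadTriple (N H : FreeGroup Om → Set P) : Set P :=
  fex fun x => fex fun y => fex fun z =>
    fand (meets (H x)) (fand (meets (H y)) (fand (meets (H z))
      (fand (meets (N ((x⁻¹ * y)⁻¹ * (y⁻¹ * z)))) (fnot (meets (N (x⁻¹ * z)))))))

variable (P) in
/-- In the extension there is a group with `ω₁` distinct generators, each uncountable subset of
which contains `x, y, z` with `x⁻¹ y = y⁻¹ z` and `x ≠ z`. -/
def StrangeGroupHolds : Set P :=
  fex fun N : FreeGroup Om → Set P => fand (IsNormalName N) (fand (GeneratorsDistinct N)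
    (fall fun H : FreeGroup Om → Set P => fimp (UncountableMod N H) (HasBadTriple N H)))

theorem mem_fex {ι : Sort v} {φ : ι → Set P} {p : P} :
    p ∈ fex φ ↔ ∀ q ≤ p, ∃ r ≤ q, ∃ i, r ∈ φ i := by
  simp only [fex, fnot, fall, Set.mem_ofPred_eq, not_forall, not_not]
  constructor
  · intro h q hq
    obtain ⟨i, r, hr, h'⟩ := h q hq
    exact ⟨r, hr, i, h'⟩
  · intro h q hq
    obtain ⟨r, hr, i, h'⟩ := h q hq
    exact ⟨i, r, hr, h'⟩

theorem mem_fimp {φ ψ : Set P} {p : P} :
    p ∈ fimp φ ψ ↔ ∀ q ≤ p, q ∈ φ → ∃ r ≤ q, r ∈ ψ := by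
  simp only [fimp, fnot, fand, Set.mem_ofPred_eq, not_and, not_forall, not_not]
  constructor
  · intro h q hq hφ
    obtain ⟨r, hr, h'⟩ := h q hq hφ
    exact ⟨r, hr, h'⟩
  · intro h q hq hφ
    obtain ⟨r, hr, h'⟩ := h q hq hφ
    exact ⟨r, hr, h'⟩

lemma meets_mono {A : Set P} {p q : P} (h : q ≤ p) (hp : p ∈ meets A) : q ∈ meets A :=
  fun r hr => hp r (hr.trans h)

theorem omegaOnePreserved_of_ccc (h : CCC P) (p : P) : p ∈ OmegaOnePreserved P := by
  classical
  intro q _ hq
  obtain ⟨r, _, R, ⟨⟨_, hfun⟩, honto⟩⟩ := mem_fex.1 hq q le_rfl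
  have hV : ∀ n : ℕ, {b : Om | ∃ s ≤ r, s ∈ meets (R n b)}.Countable := by
    intro n
    have hex : ∀ b : {b : Om | ∃ s ≤ r, s ∈ meets (R n b)}, ∃ s ≤ r, s ∈ meets (R n b) :=
      fun b => b.2
    choose s hs hs' using hex
    have hcomp : ∀ b b', (∃ t, t ≤ s b ∧ t ≤ s b') → b = b' := by
      rintro b b' ⟨t, h1, h2⟩
      have h3 := hfun n b b'
      obtain ⟨_, _, h4⟩ := mem_fimp.1 h3 t (h1.trans (hs b))
        ⟨meets_mono h1 (hs' b), meets_mono h2 (hs' b')⟩
      exact Subtype.ext h4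
    have hA : (range s).Countable := by
      refine h _ ?_
      rintro _ ⟨b, rfl⟩ _ ⟨b', rfl⟩ hne hc
      exact hne (congrArg s (hcomp b b' hc))
    have hinj : Function.Injective s := fun b b' hb =>
      hcomp b b' ⟨s b, le_rfl, hb.le⟩
    have : Countable (range s) := hA
    have h5 : Countable {b : Om | ∃ s ≤ r, s ∈ meets (R n b)} :=
      (Function.Injective.countable (f := fun b => (⟨s b, b, rfl⟩ : range s))
        fun b b' hb => hinj (congrArg Subtype.val hb))
    exact h5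
  obtain ⟨b, hb⟩ := bdd_of_countable (countable_iUnion hV)
  obtain ⟨t, ht, n, hn⟩ := mem_fex.1 (honto b) r le_rfl
  exact lt_irrefl b (hb b (mem_iUnion.2 ⟨n, t, ht, hn⟩))

end

/-! ### The generic group -/

/-- the words which are trivial in the generic group -/
def NN (v : FreeGroup Om) : Set Cond := {p | v ∈ p.W ∧ p.val v = 1}

lemma mem_meets_NN {p : Cond} {v : FreeGroup Om} (hv : v ∈ p.W) :
    p ∈ meets (NN v) ↔ p.val v = 1 := by
  constructor
  · intro h
    obtain ⟨r, hr, s, hs, hrs⟩ := h p le_rfl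
    exact (hr.2 v hv).1.1 ((hrs.2 v hs.1).1.2 hs.2)
  · intro h q hq
    exact ⟨q, le_rfl, p, ⟨hv, h⟩, hq⟩

lemma not_meets_NN {p : Cond} {v : FreeGroup Om} (hv : v ∈ p.W) (h : p.val v ≠ 1) :
    p ∈ fnot (meets (NN v)) := by
  intro q hq hq'
  rw [mem_meets_NN (W_mono hq hv)] at hq'
  exact h ((hq.2 v hv).1.1 hq')

lemma isNormalName (p : Cond) : p ∈ IsNormalName NN := by
  refine ⟨(mem_meets_NN (one_mem _)).2 (map_one _), fun u v => ?_, fun u g => ?_⟩
  · rw [mem_fimp]
    intro q _ hq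
    obtain ⟨r, hr, hu⟩ := exists_W q u
    obtain ⟨r', hr', hv⟩ := exists_W r v
    have hu' := W_mono hr' hu
    refine ⟨r', hr'.trans hr, (mem_meets_NN (mul_mem hu' (inv_mem hv))).2 ?_⟩
    rw [map_mul, map_inv, (mem_meets_NN hu').1 (meets_mono (hr'.trans hr) hq.1),
      (mem_meets_NN hv).1 (meets_mono (hr'.trans hr) hq.2), inv_one, mul_one]
  · rw [mem_fimp]
    intro q _ hq
    obtain ⟨r, hr, hu⟩ := exists_W q u
    obtain ⟨r', hr', hg⟩ := exists_W r g
    have hu' := W_mono hr' hu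
    refine ⟨r', hr'.trans hr, (mem_meets_NN (mul_mem (mul_mem hg hu') (inv_mem hg))).2 ?_⟩
    rw [map_mul, map_mul, map_inv, (mem_meets_NN hu').1 (meets_mono (hr'.trans hr) hq), mul_one,
      mul_inv_cancel]

lemma val_of (p : Cond) (i : Om) : p.val (FreeGroup.of i) = p.t i := by
  simp [Cond.val]

lemma of_mem_W {p : Cond} {i : Om} (h : i ∈ p.dom) : FreeGroup.of i ∈ p.W :=
  Subgroup.subset_closure ⟨i, h, rfl⟩

lemma generatorsDistinct (p : Cond) : p ∈ GeneratorsDistinct NN := by
  intro i j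
  rw [mem_fimp]
  intro q _ hij
  have hij' : i ≠ j := hij
  obtain ⟨r, hr, hi⟩ := exists_dom q i
  obtain ⟨r', hr', hj⟩ := exists_dom r j
  have hi' := hr'.1 hi
  refine ⟨r', hr'.trans hr, not_meets_NN (mul_mem (inv_mem (of_mem_W hi')) (of_mem_W hj)) ?_⟩
  intro h
  rw [map_mul, map_inv, val_of, val_of, inv_mul_eq_one] at h
  rcases lt_or_gt_of_ne hij' with hlt | hlt
  · refine t_not_mem r' hj ?_
    rw [← h]
    exact Subgroup.subset_closure ⟨i, hlt, rfl⟩
  · refine t_not_mem r' hi' ?_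
    rw [h]
    exact Subgroup.subset_closure ⟨j, hlt, rfl⟩

lemma countable_words (a : Om) :
    (range (FreeGroup.map (Subtype.val : Iio a → Om))).Countable := by
  have : Countable (Iio a) := countable_Iio a
  have h : Countable (FreeGroup (Iio a)) :=
    Function.Surjective.countable (f := (FreeGroup.mk : List (Iio a × Bool) → _))
      Quot.mk_surjective
  exact countable_range _

/-- the meaning of uncountability for ground model countable sets -/
lemma exists_new {H : FreeGroup Om → Set Cond} {p : Cond} (hp : p ∈ UncountableMod NN H)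
    {C : Set (FreeGroup Om)} (hC : C.Countable) (hne : C.Nonempty) :
    ∃ r ≤ p, ∃ v, r ∈ meets (H v) ∧ ∀ c ∈ C, ∀ r' ≤ r, r' ∉ meets (NN (c⁻¹ * v)) := by
  obtain ⟨f, rfl⟩ := hC.exists_eq_range hne
  have h1 := hp p le_rfl
  rw [mem_fex] at h1
  push Not at h1
  obtain ⟨q, hq, h2⟩ := h1
  have h3 := h2 q le_rfl (fun n u => {_q | u = f n})
  have h4 : q ∈ IsFun (fun n u => ({_q | u = f n} : Set Cond)) := by
    refine ⟨fun n => mem_fex.2 fun q' _ => ⟨q', le_rfl, f n, fun r _ => ⟨r, le_rfl, r, rfl, le_rfl⟩⟩,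
      fun n u u' => mem_fimp.2 fun q' _ h => ?_⟩
    obtain ⟨_, _, _, h5, _⟩ := h.1 q' le_rfl
    obtain ⟨_, _, _, h6, _⟩ := h.2 q' le_rfl
    have h5' : u = f n := h5
    have h6' : u' = f n := h6
    exact ⟨q', le_rfl, h5'.trans h6'.symm⟩
  have h5 : ¬ ∀ v, q ∈ fimp (meets (H v)) (fex fun n : ℕ => fex fun u =>
      fand (meets ({_q | u = f n} : Set Cond)) (meets (NN (u⁻¹ * v)))) := fun h => h3 ⟨h4, h⟩
  push Not at h5
  obtain ⟨v, hv⟩ := h5
  rw [mem_fimp] at hv
  push Not at hv
  obtain ⟨r, hr, hrH, hr'⟩ := hv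
  refine ⟨r, hr.trans hq, v, hrH, ?_⟩
  rintro _ ⟨n, rfl⟩ r' hr'' hcon
  refine hr' r' hr'' (mem_fex.2 fun q' hq' => ⟨q', le_rfl, n, mem_fex.2 fun q'' hq'' =>
    ⟨q'', le_rfl, f n, fun r _ => ⟨r, le_rfl, r, rfl, le_rfl⟩, ?_⟩⟩)
  exact meets_mono (hq''.trans hq') hcon

/-- the members of an uncountable set lie outside of the countable stages -/
lemma exists_above {H : FreeGroup Om → Set Cond} {p : Cond} (hp : p ∈ UncountableMod NN H)
    (a : Om) : ∃ q ≤ p, ∃ v, q ∈ meets (H v) ∧ v ∈ q.W ∧ q.val v ∉ q.gen a := by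
  obtain ⟨r, hr, v, hv, hnew⟩ := exists_new hp (countable_words a) ⟨_, 1, rfl⟩
  obtain ⟨q, hq, hvq⟩ := exists_W r v
  refine ⟨q, hq.trans hr, v, meets_mono hq hv, hvq, fun hmem => ?_⟩
  have h1 : q.gen a ≤ (Subgroup.closure (FreeGroup.of '' (Iio a ∩ q.dom))).map q.val := by
    rw [Cond.gen, Subgroup.closure_le]
    rintro _ ⟨i, hi, rfl⟩
    by_cases hd : i ∈ q.dom
    · exact ⟨FreeGroup.of i, Subgroup.subset_closure ⟨i, ⟨hi, hd⟩, rfl⟩, val_of q i⟩
    · rw [t_off q hd]
      exact one_mem _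
  obtain ⟨c, hc, hcv⟩ := h1 hmem
  have h2 : c ∈ q.W := Subgroup.closure_mono (image_mono inter_subset_right) hc
  have h3 : Subgroup.closure (FreeGroup.of '' (Iio a ∩ q.dom)) ≤
      (FreeGroup.map (Subtype.val : Iio a → Om)).range := by
    rw [Subgroup.closure_le]
    rintro _ ⟨i, ⟨hi, _⟩, rfl⟩
    exact ⟨FreeGroup.of ⟨i, hi⟩, by simp⟩
  refine hnew c (h3 hc) q hq ((mem_meets_NN (mul_mem (inv_mem h2) hvq)).2 ?_)
  rw [map_mul, map_inv, hcv, inv_mul_cancel]

lemma exists_word (p : Cond) {v : FreeGroup Om} (hv : v ∈ p.W) :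
    ∃ u : FreeGroup (Fin p.s.m), FreeGroup.map p.ε u = v := by
  have : p.W ≤ (FreeGroup.map p.ε).range := by
    rw [Cond.W, Subgroup.closure_le]
    rintro _ ⟨i, ⟨j, rfl⟩, rfl⟩
    exact ⟨FreeGroup.of j, by simp⟩
  exact this hv

lemma val_map (s : Shape) (ε : Fin s.m ↪o Om) (u : FreeGroup (Fin s.m)) :
    (⟨s, ε⟩ : Cond).val (FreeGroup.map ε u) = FreeGroup.lift s.T u := by
  have : (⟨s, ε⟩ : Cond).val.comp (FreeGroup.map ε) = FreeGroup.lift s.T :=
    FreeGroup.ext_hom _ _ fun j => by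
      simp only [MonoidHom.comp_apply, FreeGroup.map.of, FreeGroup.lift_apply_of, val_of]
      exact t_ε ⟨s, ε⟩ j
  exact congrArg (fun f : FreeGroup (Fin s.m) →* _ => f u) this

/-- Among uncountably many conditions there are three which are compatible in such a way that
given elements form a bad triple. -/
lemma triple (q : Om → Cond) (v : Om → FreeGroup Om) (hv : ∀ a, v a ∈ (q a).W) :
    ∃ a b c : Om, a < b ∧ b < c ∧ ∃ D : Cond, D ≤ q a ∧ D ≤ q b ∧ D ≤ q c ∧
      D.val (v c) * (D.val (v a))⁻¹ * D.val (v c) = D.val (v b) ∧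
      (D.val (v a) = D.val (v b) → (q a).val (v a) ∈ (q a).gen a) := by
  classical
  choose u hu using fun a => exists_word (q a) (hv a)
  let Z : Type := Σ s : Shape, FreeGroup (Fin s.m) × (Fin s.m → Option Om)
  let τ : Om → Z := fun a =>
    ⟨(q a).s, u a, fun j => if (q a).ε j < a then some ((q a).ε j) else none⟩
  let F : Om → Set Z := fun b => {z | ∀ j o, z.2.2 j = some o → o ≤ b}
  have hF : ∀ b, (F b).Countable := by
    intro b
    have : Countable (Iic b) := countable_Iic b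
    have hfg : ∀ n : ℕ, Countable (FreeGroup (Fin n)) := fun n =>
      Function.Surjective.countable (f := (FreeGroup.mk : List (Fin n × Bool) → _))
        Quot.mk_surjective
    have h1 : Countable (Σ s : Shape, FreeGroup (Fin s.m) × (Fin s.m → Option (Iic b))) := by
      have : ∀ s : Shape, Countable (FreeGroup (Fin s.m) × (Fin s.m → Option (Iic b))) :=
        fun s => inferInstance
      infer_instance
    refine (countable_range (fun z : (Σ s : Shape, FreeGroup (Fin s.m) ×
      (Fin s.m → Option (Iic b))) => (⟨z.1, z.2.1, fun j => (z.2.2 j).map Subtype.val⟩ : Z))).mono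
      ?_
    rintro ⟨s, w, r⟩ hz
    refine ⟨⟨s, w, fun j => if h : ∃ o, r j = some o then some ⟨h.choose, hz j _ h.choose_spec⟩
      else none⟩, ?_⟩
    simp only [Sigma.mk.injEq, heq_eq_eq, Prod.mk.injEq, true_and]
    funext j
    by_cases h : ∃ o, r j = some o
    · simp only [dif_pos h, Option.map_some]
      exact h.choose_spec.symm
    · simp only [dif_neg h, Option.map_none]
      cases hr : r j with
      | none => rfl
      | some o => exact absurd ⟨o, hr⟩ h
  obtain ⟨z, hz⟩ := pressing F hF τ (by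
    intro a s hs hlt hcof
    have h1 : ∀ j : Fin (q a).s.m, ∃ n, (q a).ε j < a → (q a).ε j ≤ s n := by
      intro j
      by_cases hj : (q a).ε j < a
      · obtain ⟨n, hn⟩ := hcof _ hj
        exact ⟨n, fun _ => hn⟩
      · exact ⟨0, fun h => absurd h hj⟩
    choose n hn using h1
    refine ⟨Finset.univ.sup n, ?_⟩
    intro j o ho
    simp only [τ] at ho
    by_cases hj : (q a).ε j < a
    · rw [if_pos hj, Option.some.injEq] at ho
      rw [← ho]
      exact (hn j hj).trans (hs (Finset.le_sup (f := n) (Finset.mem_univ j)))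
    · rw [if_neg hj] at ho
      exact absurd ho (by simp))
  have real : ∀ a, τ a = z → ∃ ε : Fin z.1.m ↪o Om, q a = ⟨z.1, ε⟩ ∧
      v a = FreeGroup.map ε z.2.1 ∧ ∀ j, z.2.2 j = if ε j < a then some (ε j) else none := by
    rintro a rfl
    exact ⟨(q a).ε, rfl, (hu a).symm, fun j => rfl⟩
  obtain ⟨s, w, r⟩ := z
  obtain ⟨b₀⟩ : Nonempty Om := inferInstance
  obtain ⟨a, _, ha⟩ := hz b₀
  obtain ⟨εa, qa, va, ra⟩ := real a ha
  obtain ⟨b₁, hb₁⟩ := bdd_of_countable ((countable_singleton a).union (countable_range εa))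
  obtain ⟨b, hb, hb'⟩ := hz b₁
  obtain ⟨εb, qb, vb, rb⟩ := real b hb'
  obtain ⟨c₁, hc₁⟩ := bdd_of_countable ((countable_singleton b).union (countable_range εb))
  obtain ⟨c, hc, hc'⟩ := hz c₁
  obtain ⟨εc, qc, vc, rc⟩ := real c hc'
  have hab : a < b := (hb₁ a (Or.inl rfl)).trans hb
  have hbc : b < c := (hc₁ b (Or.inl rfl)).trans hc
  have cmp : ∀ (x : Om) (ε : Fin s.m ↪o Om),
      (∀ j, r j = if ε j < x then some (ε j) else none) →
      (∀ j, εa j < a → ε j = εa j) ∧ (∀ j, ¬ εa j < a → x ≤ ε j) := by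
    intro x ε hx
    constructor
    · intro j hj
      have h1 := ra j
      have h2 := hx j
      simp only [if_pos hj] at h1
      by_cases h3 : ε j < x
      · simp only [if_pos h3] at h2
        rw [h1, Option.some.injEq] at h2
        exact h2.symm
      · simp only [if_neg h3] at h2
        rw [h1] at h2
        exact absurd h2 (by simp)
    · intro j hj
      have h1 := ra j
      have h2 := hx j
      simp only [if_neg hj] at h1
      by_contra h3
      rw [not_le] at h3
      simp only [if_pos h3] at h2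
      rw [h1] at h2
      exact absurd h2 (by simp)
  obtain ⟨D, hD0, hD2, hD1, hD⟩ := amalgam s εa εb εc hab hbc
    (fun j => (hb₁ _ (Or.inr ⟨j, rfl⟩)).trans hb) (fun j => (hc₁ _ (Or.inr ⟨j, rfl⟩)).trans hc)
    (cmp b εb rb).1 (cmp c εc rc).1 (cmp b εb rb).2 (cmp c εc rc).2
  refine ⟨a, b, c, hab, hbc, D, ?_, ?_, ?_, ?_, ?_⟩
  · rw [qa]; exact hD0
  · rw [qb]; exact hD2
  · rw [qc]; exact hD1
  · rw [va, vb, vc]; exact (hD w).1
  · rw [va, vb, qa]
    intro h
    have h1 := (hD w).2 h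
    have h2 : Subgroup.closure (s.T '' {j | εa j < a}) ≤ (⟨s, εa⟩ : Cond).gen a := by
      rw [Subgroup.closure_le]
      rintro _ ⟨j, hj, rfl⟩
      exact Subgroup.subset_closure ⟨_, hj, t_ε ⟨s, εa⟩ j⟩
    have h3 := val_map s εa w
    exact h3.symm ▸ h2 h1

theorem ccc_Cond : CCC Cond := by
  classical
  intro A hA
  by_contra hcon
  have h1 : Cardinal.mk Om ≤ Cardinal.mk A := by
    rw [mk_Om, ← Cardinal.succ_aleph0, Order.succ_le_iff, ← not_le]
    rw [← Cardinal.le_aleph0_iff_set_countable] at hcon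
    exact hcon
  obtain ⟨f⟩ := (Cardinal.le_def _ _).1 h1
  obtain ⟨a, b, c, hab, hbc, D, hDa, hDb, _⟩ := triple (fun a => (f a : Cond)) (fun _ => 1)
    (fun a => one_mem _)
  refine hA _ (f a).2 _ (f b).2 (fun h => ?_) ⟨D, hDa, hDb⟩
  exact hab.ne (f.injective (Subtype.ext h))

theorem strange (p : Cond) : p ∈ StrangeGroupHolds Cond := by
  refine mem_fex.2 fun q _ => ⟨q, le_rfl, NN, isNormalName q, generatorsDistinct q, ?_⟩
  intro H
  rw [mem_fimp]
  intro q' _ hq'
  choose r hr v hv hvW hvg using exists_above hq'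
  obtain ⟨a, b, c, hab, hbc, D, hDa, hDb, hDc, h1, h2⟩ := triple r v hvW
  have hWa : v a ∈ D.W := W_mono hDa (hvW a)
  have hWb : v b ∈ D.W := W_mono hDb (hvW b)
  have hWc : v c ∈ D.W := W_mono hDc (hvW c)
  refine ⟨D, hDa.trans (hr a), ?_⟩
  have key : ∀ q ≤ D, q ∈ fand (meets (H (v a))) (fand (meets (H (v c))) (fand (meets (H (v b)))
      (fand (meets (NN (((v a)⁻¹ * v c)⁻¹ * ((v c)⁻¹ * v b))))
        (fnot (meets (NN ((v a)⁻¹ * v b))))))) := by
    intro q hq
    refine ⟨meets_mono (hq.trans hDa) (hv a), meets_mono (hq.trans hDc) (hv c),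
      meets_mono (hq.trans hDb) (hv b), meets_mono hq ?_, fun q₁ hq₁ => ?_⟩
    · refine (mem_meets_NN ?_).2 ?_
      · exact mul_mem (inv_mem (mul_mem (inv_mem hWa) hWc)) (mul_mem (inv_mem hWc) hWb)
      · rw [map_mul, map_inv, map_mul, map_mul, map_inv, map_inv, ← h1]
        group
    · have : D ∈ fnot (meets (NN ((v a)⁻¹ * v b))) := by
        refine not_meets_NN (mul_mem (inv_mem hWa) hWb) ?_
        intro h
        rw [map_mul, map_inv, inv_mul_eq_one] at h
        exact hvg a (h2 h)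
      exact this q₁ (hq₁.trans hq)
  exact mem_fex.2 fun q₁ hq₁ => ⟨q₁, le_rfl, v a, mem_fex.2 fun q₂ hq₂ => ⟨q₂, le_rfl, v c,
    mem_fex.2 fun q₃ hq₃ => ⟨q₃, le_rfl, v b, key q₃ (hq₃.trans (hq₂.trans hq₁))⟩⟩⟩

instance : Nonempty Cond := by
  obtain ⟨c, _⟩ := exists_cond ∅ (fun _ : Om => (1 : Equiv.Perm (Fin 1))) (fun _ _ => rfl)
    (fun i hi => absurd hi (by simp))
  exact ⟨c⟩

/-- Some forcing notion satisfies the countable chain condition, preserves `ω₁`, and adds a group
of cardinality `ℵ₁` each uncountable subset of which contains `x, y, z` with `x⁻¹ y = y⁻¹ z` and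
`x ≠ z`. -/
theorem result : ∃ (P : Type) (_ : Preorder P), Nonempty P ∧ CCC P ∧
    ∀ p : P, p ∈ OmegaOnePreserved P ∧ p ∈ StrangeGroupHolds P :=
  ⟨Cond, inferInstance, inferInstance, ccc_Cond,
    fun p => ⟨omegaOnePreserved_of_ccc ccc_Cond p, strange p⟩⟩

end Pool.Agent.Results.MP_b18e8e_lc.ConsistentAlephOne
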