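import Mathlib
import Pool.Agent.Helper996.StrangeMore

/-!
# MP_b18e8e_lc: no strange group at singular strong limit cardinals, at cardinals with a saturated
ideal; large good subsets; soluble groups; linear groups
-/

namespace Pool.Agent.Results.MP_b18e8e_lc.Families

open Cardinal

universe u

/-- `H` is good: for `x, y, z ∈ H` the equation `x⁻¹ y = y⁻¹ z` forces `x = z`. -/
def Good {G : Type u} [Group G] (H : Set G) : Prop :=
  ∀ x ∈ H, ∀ y ∈ H, ∀ z ∈ H, x⁻¹ * y = y⁻¹ * z → x = z

/-- There is a strange group of cardinality `κ`: a group of cardinality `κ` no good subset of which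
has cardinality `κ`. -/
def HasStrangeGroup (κ : Cardinal.{u}) : Prop :=
  ∃ (G : Type u) (_ : Group G), #G = κ ∧ ∀ H : Set G, Good H → #H ≠ κ

/-- `κ` carries a `κ`-complete proper ideal containing all singletons such that, for some infinite
`l < κ`, every family of pairwise disjoint sets outside the ideal has at most `l` members. -/
def HasSaturatedIdeal (κ : Cardinal.{u}) : Prop :=
  ∃ (I : Set (Set κ.out)) (l : Cardinal.{u}), ℵ₀ ≤ l ∧ l < κ ∧
    Set.univ ∉ I ∧ (∀ x, {x} ∈ I) ∧ (∀ A B : Set κ.out, A ⊆ B → B ∈ I → A ∈ I) ∧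
    (∀ F : Set (Set κ.out), #F < κ → (∀ A ∈ F, A ∈ I) → ⋃₀ F ∈ I) ∧
    (∀ F : Set (Set κ.out), (∀ A ∈ F, A ∉ I) → F.Pairwise Disjoint → #F ≤ l)

/-- The solution sets of systems of equations `z x⁻¹ z = y` (with `x, y ∈ G`) satisfy the
descending chain condition. -/
def ChainCondition (G : Type u) [Group G] : Prop :=
  ∀ x y : ℕ → G, ∃ n, ∀ z : G, (∀ i < n, z * (x i)⁻¹ * z = y i) → z * (x n)⁻¹ * z = y n

theorem ideal_case {G : Type u} [Group G] (h : HasSaturatedIdeal #G) :
    ∃ H : Set G, Good H ∧ #H = #G := by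
  classical
  obtain ⟨I, l, hl0, hl, h1, h2, h3, h4, h5⟩ := h
  obtain ⟨e⟩ : Nonempty (G ≃ (#G).out) := Cardinal.eq.1 (mk_out #G).symm
  refine Helper996.Strange.good_of_ideal (G := G) {A | e '' A ∈ I} l hl0 hl ?_ ?_ ?_ ?_ ?_
  · intro h
    apply h1
    have : e '' (Set.univ : Set G) = Set.univ := by
      rw [Set.image_univ, e.surjective.range_eq]
    rw [← this]; exact h
  · intro x
    show e '' {x} ∈ I
    rw [Set.image_singleton]
    exact h2 (e x)
  · intro A B hAB hB
    exact h3 _ _ (Set.image_mono hAB) hB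
  · intro F hF hFI
    show e '' (⋃₀ F) ∈ I
    rw [Set.image_sUnion]
    apply h4
    · exact mk_image_le.trans_lt hF
    · rintro _ ⟨A, hA, rfl⟩
      exact hFI A hA
  · intro F hF hdis
    have hinj : Function.Injective (fun A : Set G => e '' A) := e.injective.image_injective
    rw [← mk_image_eq (s := F) hinj]
    apply h5
    · rintro _ ⟨A, hA, rfl⟩
      exact hF A hA
    · rintro _ ⟨A, hA, rfl⟩ _ ⟨B, hB, rfl⟩ hne
      exact (Set.disjoint_image_iff e.injective).2 (hdis hA hB (fun h => hne (by rw [h])))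

/-- **Results on strange groups.**
1. No strange group has singular strong limit cardinality.
2. No strange group has a cardinality `κ` that carries a `κ`-complete, `l⁺`-saturated ideal, `l < κ`
   (for instance a real-valued measurable `κ`).
3. A group with more than `2 ^ l` elements (`l` infinite) has a good subset with more than `l`
   elements.
4. No soluble group, of any infinite cardinality, is strange.
5. If `|G|` is regular and `G` satisfies the chain condition on solution sets of equations
   `z x⁻¹ z = y`, then `G` is not strange.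
6. If `|G|` is regular and `G` is isomorphic to a group of matrices over a Noetherian commutative
   ring, then `G` is not strange. -/
theorem result :
    (∀ κ : Cardinal.{u}, κ.IsStrongLimit → κ.IsSingular → ¬ HasStrangeGroup κ) ∧
    (∀ κ : Cardinal.{u}, HasSaturatedIdeal κ → ¬ HasStrangeGroup κ) ∧
    (∀ (G : Type u) [Group G] (l : Cardinal.{u}), ℵ₀ ≤ l → 2 ^ l < #G →
      ∃ H : Set G, Good H ∧ l < #H) ∧
    (∀ (G : Type u) [Group G], Group.IsSolvable G → ℵ₀ ≤ #G → ∃ H : Set G, Good H ∧ #H = #G) ∧
    (∀ (G : Type u) [Group G], (#G).IsRegular → ChainCondition G →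
      ∃ H : Set G, Good H ∧ #H = #G) ∧
    (∀ (G : Type u) [Group G] (R : Type u) [CommRing R] [IsNoetherianRing R] (m : ℕ)
      (φ : G →* Matrix (Fin m) (Fin m) R), Function.Injective φ → (#G).IsRegular →
      ∃ H : Set G, Good H ∧ #H = #G) := by
  refine ⟨?_, ?_, ?_, ?_, ?_, ?_⟩
  · rintro κ hs hsing ⟨G, _, rfl, hG⟩
    obtain ⟨H, h1, h2⟩ := Helper996.Strange.good_of_singular (G := G) hs hsing
    exact hG H h1 h2
  · rintro κ hI ⟨G, _, rfl, hG⟩
    obtain ⟨H, h1, h2⟩ := ideal_case hI
    exact hG H h1 h2
  · intro G _ l hl h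
    exact Helper996.Strange.good_of_two_power_lt l hl h
  · intro G _ hs hinf
    exact Helper996.Strange.good_of_solvable hs hinf
  · intro G _ hk hch
    exact Helper996.Strange.good_of_chain hch hk
  · intro G _ R _ _ m φ hφ hk
    exact Helper996.Strange.good_of_chain (Helper996.Strange.chain_of_linear φ hφ) hk

end Pool.Agent.Results.MP_b18e8e_lc.Families
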