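import Mathlib
import Pool.Agent.Helper996.StrangeClosure

/-!
# MP_b18e8e_lc: there is no strange group of singular strong limit cardinality
-/

namespace Pool.Agent.Results.MP_b18e8e_lc.SingularStrongLimit

open Cardinal

universe u

/-- `H` is good: for `x, y, z ∈ H` the equation `x⁻¹ y = y⁻¹ z` forces `x = z`. -/
def Good {G : Type u} [Group G] (H : Set G) : Prop :=
  ∀ x ∈ H, ∀ y ∈ H, ∀ z ∈ H, x⁻¹ * y = y⁻¹ * z → x = z

/-- **No strange group at a singular strong limit.** If `κ` is a singular strong limit cardinal,
every group of cardinality `κ` has a good subset of cardinality `κ`. -/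
theorem result (κ : Cardinal.{u}) (hs : κ.IsStrongLimit) (hsing : κ.IsSingular)
    (G : Type u) [Group G] (hG : #G = κ) : ∃ H : Set G, Good H ∧ #H = κ := by
  subst hG
  exact Helper996.Strange.good_of_singular (G := G) hs hsing

end Pool.Agent.Results.MP_b18e8e_lc.SingularStrongLimit
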